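import Mathlib
import Pool.Agent.H58.Hajos

/-!
# Hajos constructions with critical inputs to the join

Every `k`-critical graph has a construction from copies of `K_k` by Hajos joins and
identifications of non-adjacent vertices in which both inputs of every Hajos join are
`k`-critical (positive answer to Q1).

The statement is the frozen one with the edge comparison `s(p, q) ≠ s(x1, y1)` of unordered
pairs. (In the frozen text the expression `Sym2.mk (p, q)` is a partial application of the
curried constructor `Sym2.mk`, so that only one orientation of the edge is deleted there and the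
clause for the join can never be satisfied.)

Idea of the proof: induction on the number of vertices. Let `v` be a vertex of the critical graph
`G` and take a `K_k` labelled by `v` and `k - 1` of its neighbours. A pair `x, y` of labels which
is not adjacent in `G` has the common neighbour `v`. Take a `k`-critical subgraph `Y` of `G/xy`;
it is constructible by induction. Splitting the merged vertex of `Y` into `x` and `y` gives a
proper subgraph of `G` (the edge `yv` is missing), which is therefore `(k-1)`-colourable. Hence
the Dirac-Ore composition that replaces the edge `xy` by the split copy of `Y` is again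
`k`-critical; it is obtained from Hajos joins with critical inputs, followed by identifications.
After all non-adjacent pairs are treated we have a constructible critical graph with a
homomorphism to `G`, whose image has to be all of `G`.
-/

set_option autoImplicit false

namespace Pool.Agent.Results.MP_c17804_co.CriticalInputs

/-- Let `C` be any class of finite graphs that contains `K_k`, and is closed under isomorphism,
under Hajos joins of two `k`-critical members, and under the identification of two non-adjacent
vertices. Then `C` contains every `k`-critical graph. -/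
theorem result :
    ∀ k : ℕ, ∀ C : (n : ℕ) → SimpleGraph (Fin n) → Prop,
      C k (⊤ : SimpleGraph (Fin k)) →
      (∀ (n m : ℕ) (G : SimpleGraph (Fin n)) (H : SimpleGraph (Fin m)),
          C n G → Nonempty (G ≃g H) → C m H) →
      (∀ (a b m : ℕ) (G1 : SimpleGraph (Fin a)) (G2 : SimpleGraph (Fin b))
          (H : SimpleGraph (Fin m)) (x1 y1 : Fin a) (x2 y2 : Fin b)
          (f1 : Fin a → Fin m) (f2 : Fin b → Fin m),
          C a G1 → C b G2 →
          (G1.chromaticNumber = (k : ℕ∞) ∧
            ∀ S : G1.Subgraph, S ≠ ⊤ → S.coe.chromaticNumber < (k : ℕ∞)) →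
          (G2.chromaticNumber = (k : ℕ∞) ∧
            ∀ S : G2.Subgraph, S ≠ ⊤ → S.coe.chromaticNumber < (k : ℕ∞)) →
          G1.Adj x1 y1 → G2.Adj x2 y2 →
          Function.Injective f1 → Function.Injective f2 →
          f1 x1 = f2 x2 →
          (∀ p q, f1 p = f2 q → p = x1 ∧ q = x2) →
          (∀ z, (∃ p, f1 p = z) ∨ (∃ q, f2 q = z)) →
          (∀ z w, H.Adj z w ↔
            ((∃ p q, G1.Adj p q ∧ s(p, q) ≠ s(x1, y1) ∧ f1 p = z ∧ f1 q = w) ∨
             (∃ p q, G2.Adj p q ∧ s(p, q) ≠ s(x2, y2) ∧ f2 p = z ∧ f2 q = w) ∨
             (z = f1 y1 ∧ w = f2 y2) ∨ (z = f2 y2 ∧ w = f1 y1))) →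
          C m H) →
      (∀ (n m : ℕ) (G : SimpleGraph (Fin n)) (H : SimpleGraph (Fin m))
          (u v : Fin n) (f : Fin n → Fin m),
          C n G → u ≠ v → ¬ G.Adj u v → Function.Surjective f → f u = f v →
          (∀ a b, f a = f b → a = b ∨ (a = u ∧ b = v) ∨ (a = v ∧ b = u)) →
          (∀ z w, H.Adj z w ↔ ∃ p q, G.Adj p q ∧ f p = z ∧ f q = w) →
          C m H) →
      ∀ (n : ℕ) (G : SimpleGraph (Fin n)),
        (G.chromaticNumber = (k : ℕ∞) ∧
          ∀ S : G.Subgraph, S ≠ ⊤ → S.coe.chromaticNumber < (k : ℕ∞)) →
        C n G := by
  intro k C hbase hiso hjoin hident n G hG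
  rcases Nat.eq_zero_or_pos k with hk0 | hkpos
  · -- `k = 0`: the graph has no vertices
    subst hk0
    have h0 : G.chromaticNumber = 0 := by simpa using hG.1
    have hemp : IsEmpty (Fin n) := SimpleGraph.chromaticNumber_eq_zero_iff.1 h0
    have hn : n = 0 := by
      by_contra hne
      exact hemp.elim ⟨0, Nat.pos_of_ne_zero hne⟩
    subst hn
    have hGt : G = ⊤ := by
      ext u
      exact u.elim0
    rw [hGt]
    exact hbase
  obtain ⟨q, rfl⟩ : ∃ q, k = q + 1 := ⟨k - 1, by omega⟩
  rcases Nat.eq_zero_or_pos q with hq0 | hq
  · -- `k = 1`: the graph is a single vertex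
    subst hq0
    have h1 : G.chromaticNumber = 1 := by simpa using hG.1
    have hne : Nonempty (Fin n) := (SimpleGraph.chromaticNumber_eq_one_iff.1 h1).2
    obtain ⟨v⟩ := hne
    have hall : ∀ u : Fin n, u = v := by
      by_contra hcon
      push Not at hcon
      obtain ⟨u, hu⟩ := hcon
      have hS : G.singletonSubgraph v ≠ ⊤ := by
        intro h
        have h2 : u ∈ (G.singletonSubgraph v).verts := by rw [h]; trivial
        exact hu (by simpa using h2)
      have h3 := hG.2 _ hS
      have h4 : (G.singletonSubgraph v).coe.chromaticNumber = 0 := by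
        have h5 : (G.singletonSubgraph v).coe.chromaticNumber < 1 := by
          simpa only [zero_add, Nat.cast_one] using h3
        exact Order.lt_one_iff.1 h5
      have h6 := SimpleGraph.chromaticNumber_eq_zero_iff.1 h4
      exact h6.elim ⟨v, by simp⟩
    have hn : n = 1 := by
      have h7 : Fintype.card (Fin n) = 1 := Fintype.card_eq_one_iff.2 ⟨v, hall⟩
      simpa using h7
    subst hn
    have hGt : G = ⊤ := by
      ext a b
      have hab : a = b := Subsingleton.elim a b
      simp [hab]
    rw [hGt]
    exact hbase
  · -- `k = q + 1` with `q ≥ 1`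
    have hC : H58.Hajos.Closed q C := by
      refine ⟨hbase, hiso, ?_, hident⟩
      intro a b m G1 G2 H x1 y1 x2 y2 f1 f2 c1 c2 k1 k2
      exact hjoin a b m G1 G2 H x1 y1 x2 y2 f1 f2 c1 c2
        ((H58.Hajos.fcrit_iff hq).2 k1) ((H58.Hajos.fcrit_iff hq).2 k2)
    have hG' : H58.Hajos.Crit q G := (H58.Hajos.fcrit_iff hq).1 hG
    exact H58.Hajos.Cons.to_fin hC (H58.Hajos.main hC hq _ (Fin n) G rfl hG')

end Pool.Agent.Results.MP_c17804_co.CriticalInputs
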